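import Pool.Agent.Helper93.TS.Stmts
import Pool.Agent.Helper93.TS.BK

/-! Two-scale sums-differences: module NCL (the near height). -/

set_option autoImplicit false

namespace Pool.Agent.Helper93.TS

open Pool.Agent.Helper8.Kak

theorem ncl_kap {m N : ℕ} (D : Dat m N)
    (hB : Base D.pz D.V D.eL D.eB D.eT D.eP D.eY D.eF D.eD D.eJ (Real.log N)) : 0 ≤ D.κ := by
  have i1 := hB.addR {VV.l1} {VV.l1, VV.R} (by decide +kernel)
  have i2 := hB.h1R
  have i3 := hB.hL1
  unfold Dat.κ
  linarith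

/-- the coarse cell and the inner height determine the height -/
theorem ncl_inj {N : ℕ} {t t' : Fin (N * N)} (h1 : Jc t = Jc t') (h2 : In t = In t') : t = t' := by
  have e1 : (t : ℕ) / N = (t' : ℕ) / N := congrArg (fun s : Fin N => (s : ℕ)) h1
  have e2 : (t : ℕ) % N = (t' : ℕ) % N := congrArg (fun s : Fin N => (s : ℕ)) h2
  ext
  rw [← Nat.div_add_mod (t : ℕ) N, ← Nat.div_add_mod (t' : ℕ) N, e1, e2]

open VV in
theorem st_NCL (h1 : ST_BAS) (h2 : ST_SPA) : ST_NCL := by
  intro m N D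
  have hB := h1 m N D
  obtain ⟨hp, hl, -⟩ := h2 m N D
  have h0 := ncl_kap D hB
  have hc := close hp (({l0, l1, T0, T1, S, R} : Finset VV).inf D.V)
    (fun y => In (D.T (z0 y))) (fun y => In (D.T (zB y)))
    (fun y y' _ _ h => by
      have h3 : D.V T0 y y' := (inf_rel D.V _ y y').1 h T0 (by decide +kernel)
      exact congrArg In h3)
  have hm : HH D.pz D.V {l0, l1, T0, T1, S, R, VV.B} ≤ Ent D.pz
      (Setoid.ker (fun y => In (D.T (zB y))) ⊓ ({l0, l1, T0, T1, S, R} : Finset VV).inf D.V) := by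
    refine Ent_mono' hp fun y y' hy hy' h => ?_
    have h3 : In (D.T (zB y)) = In (D.T (zB y')) := h.1
    have h4 := (inf_rel D.V _ y y').1 h.2
    have h5 : D.T (z0 y) = D.T (z0 y') := h4 T0 (by decide +kernel)
    refine (inf_rel D.V _ y y').2 fun i hi => ?_
    have hi' : i ∈ ({l0, l1, T0, T1, S, R} : Finset VV) ∨ i = VV.B := by
      revert hi
      revert i
      decide +kernel
    rcases hi' with hi' | rfl
    · exact h4 i hi'
    · exact ncl_inj (by rw [(hl y hy).tB, (hl y' hy').tB, h5]) h3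
  have hb := hB.htB
  have hj := hB.hJ
  have h6 := log5_le
  have e : Ex D.pz (fun y => nl (D.T (zB y)) (D.T (z0 y)))
      = ∑ y, D.pz y * Real.log (1 / dst (In (D.T (zB y))) (In (D.T (z0 y)))) := rfl
  rw [e]
  have e2 : HH D.pz D.V {l0, l1, T0, T1, S, R}
      = Ent D.pz (({l0, l1, T0, T1, S, R} : Finset VV).inf D.V) := rfl
  unfold Dat.κ at *
  linarith

end Pool.Agent.Helper93.TS
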