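import Pool.Agent.Helper93.TS.Stmts
import Pool.Agent.Helper93.TS.BK

/-! Two-scale sums-differences: module PRA (the first distances). -/

set_option autoImplicit false

namespace Pool.Agent.Helper93.TS

open Pool.Agent.Helper8.Kak

theorem pra_log (N : ℕ) : Real.log ((N * N : ℕ) : ℝ) = 2 * Real.log N := by
  rw [Nat.cast_mul, ← pow_two, Real.log_pow]
  norm_num

theorem pra_kap {m N : ℕ} (D : Dat m N)
    (hB : Base D.pz D.V D.eL D.eB D.eT D.eP D.eY D.eF D.eD D.eJ (Real.log N)) : 0 ≤ D.κ := by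
  have i1 := hB.addR {VV.l1} {VV.l1, VV.R} (by decide +kernel)
  have i2 := hB.h1R
  have i3 := hB.hL1
  unfold Dat.κ
  linarith

theorem pra_aux {m N : ℕ} (D : Dat m N)
    (hB : Base D.pz D.V D.eL D.eB D.eT D.eP D.eY D.eF D.eD D.eJ (Real.log N))
    (A A' : Finset VV) (i j : VV) (T' T : Z D.Ω → Fin (N * N))
    (hi : D.V i = Setoid.ker T') (hj : ∀ y y', D.V j y y' → T y = T y') (hjA : j ∈ A)
    (hA' : A' = insert i A) (hd : D.eB - D.eL ≤ HH D.pz D.V A' - HH D.pz D.V A) :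
    Ex D.pz (fun y => ld (T' y) (T y)) ≤ 5 * (D.κ + 1) := by
  have h := ld_le hB.hp T' T hi hj hjA hA' hd
  rw [pra_log] at h
  have h0 := pra_kap D hB
  have h5 := log5_le
  unfold Dat.κ at *
  linarith

open VV in
theorem st_PRA (h1 : ST_BAS) : ST_PRA := by
  intro m N D
  have hB := h1 m N D
  refine ⟨pra_kap D hB, ?_, ?_, ?_, ?_⟩
  · exact pra_aux D hB {l0, l1, T0, T1, R, VV.B} {l0, l1, T0, T1, R, VV.B, S} S T0
      (fun y => D.T (zS y)) (fun y => D.T (z0 y)) rfl (fun _ _ h => h) (by decide +kernel)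
      (by decide +kernel) hB.htS
  · exact pra_aux D hB {l0, l1, T0, T1, R, VV.B} {l0, l1, T0, T1, R, VV.B, S} S T1
      (fun y => D.T (zS y)) (fun y => D.T (zT y)) rfl (fun _ _ h => h) (by decide +kernel)
      (by decide +kernel) hB.htS
  · exact pra_aux D hB {l0, l1, T0, T1, S, VV.B} {l0, l1, T0, T1, S, VV.B, R} R T0
      (fun y => D.T (zR y)) (fun y => D.T (z0 y)) rfl (fun _ _ h => h) (by decide +kernel)
      (by decide +kernel) hB.htR
  · exact pra_aux D hB {l0, l1, T0} {l0, l1, T0, T1} T1 T0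
      (fun y => D.T (zT y)) (fun y => D.T (z0 y)) rfl (fun _ _ h => h) (by decide +kernel)
      (by decide +kernel) hB.htT

end Pool.Agent.Helper93.TS
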